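import Pool.Agent.helper81.NW.Spec

set_option autoImplicit false

namespace Pool.Agent.helper81.NW

open Pool.Agent.helper84.NR
open scoped Classical
open Finset

theorem CCW_classes (hXCW : XCW_stmt) {V F : Type} [Fintype V] [Fintype F] (M : PMap V F)
    (x y : V) (hne : ∀ f, ¬ (OnV M.toCyc f x ∧ OnV M.toCyc f y)) :
    Nat.card (Quot (lk M (UU M x y))) ≤
      Nat.card {q : Quot (lk M (UU M x y)) // ∃ g, Quot.mk _ g = q ∧ oth M x y g} + 1 + 1 := by
  have : Fintype (Quot (lk M (UU M x y))) := Fintype.ofFinite _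
  obtain ⟨hX1, hX2⟩ := hXCW V F M x y hne
  obtain ⟨A0, hA0⟩ := M.cover x
  obtain ⟨B0, hB0⟩ := M.cover y
  rw [Nat.card_eq_fintype_card, Nat.card_eq_fintype_card, Fintype.card_subtype,
    ← Finset.card_univ]
  have h1 : (univ : Finset (Quot (lk M (UU M x y)))) ⊆
      insert (Quot.mk _ A0) (insert (Quot.mk _ B0) (univ.filter fun q =>
        ∃ g, Quot.mk _ g = q ∧ oth M x y g)) := by
    intro q _
    rw [mem_insert, mem_insert]
    obtain ⟨g, rfl⟩ := Quot.exists_rep q
    by_cases ha : ∃ A, OnV M.toCyc A x ∧ CL M x y A g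
    · obtain ⟨A, hA, hAg⟩ := ha
      left
      have h2 : CL M x y A A0 := hX1 A A0 hA hA0
      unfold CL at hAg h2
      rw [← hAg, h2]
    · by_cases hb : ∃ B, OnV M.toCyc B y ∧ CL M x y B g
      · obtain ⟨B, hB, hBg⟩ := hb
        right; left
        have h2 : CL M x y B B0 := hX2 B B0 hB hB0
        unfold CL at hBg h2
        rw [← hBg, h2]
      · right; right
        refine mem_filter.2 ⟨mem_univ _, g, rfl, fun A hA h => ha ⟨A, hA, h⟩,
          fun B hB h => hb ⟨B, hB, h⟩⟩
  refine (card_le_card h1).trans ?_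
  refine (card_insert_le _ _).trans ?_
  exact Nat.add_le_add_right (card_insert_le _ _) 1

theorem CCW (hPRC : PRC_stmt) (hGCW : GCW_stmt) (hRRE : RRE_stmt) (hXCW : XCW_stmt)
    (hOT1 : OT1_stmt) (hVRI : VRI_stmt) (hHXG : HXG_stmt) : CCW_stmt := by
  intro V F _ _ M x y hW
  have hNF : NF M x y := hW.toNF
  have c1 := CCW_classes hXCW M x y hNF.ne
  have c2 := hOT1 V F M x y hNF.ne
  have c3 : ((gps M x y).filter (fun c => go M x y c)).card +
      ((gps M x y).filter (fun c => ¬ go M x y c)).card = (gps M x y).card :=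
    card_filter_add_card_filter_not (s := gps M x y) (p := fun c => go M x y c)
  have c4 : ∑ v, rr M x y v ≤ ∑ v, (HX M x y v).card := sum_le_sum fun v _ => hVRI V F M x y hW v
  have c5 := hHXG V F M x y hNF
  have c6 := hRRE V F M x y hNF
  have c7 := hGCW V F M x y hNF
  have c8 := hPRC V F M x y hNF
  unfold ZZ
  omega

end Pool.Agent.helper81.NW
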