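import Pool.Agent.helper81.NW.Spec

set_option autoImplicit false

namespace Pool.Agent.helper81.NW

open Pool.Agent.helper84.NR
open scoped Classical
open Finset

theorem JOI (hEDG : EDG_stmt) : JOI_stmt := by
  intro V F M x y A B m n a b hne hAx hBy hA hB hab
  obtain ⟨hE1, hE2⟩ := hEDG V F M
  have haV : ∀ i, i ≤ m → OnV M.toCyc A (a i) := by
    intro i hi
    rcases Nat.lt_or_ge i m with h | h
    · exact (hE1 A _ _ (hA.ed i h)).1
    · have hm1 := hA.m1
      have e : i = (m - 1) + 1 := by omega
      rw [e]
      exact (hE1 A _ _ (hA.ed (m - 1) (by omega))).2.1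
  have hbV : ∀ i, i ≤ n → OnV M.toCyc B (b i) := by
    intro i hi
    rcases Nat.lt_or_ge i n with h | h
    · exact (hE1 B _ _ (hB.ed i h)).1
    · have hn1 := hB.m1
      have e : i = (n - 1) + 1 := by omega
      rw [e]
      exact (hE1 B _ _ (hB.ed (n - 1) (by omega))).2.1
  -- a face with `x` contains no `b j`, `j < n`
  have hbx : ∀ f, OnV M.toCyc f x → ∀ j, j < n → ¬ OnV M.toCyc f (b j) := by
    intro f hf j hj h
    rcases Nat.eq_zero_or_pos j with h0 | h0
    · subst h0
      rw [hB.a0] at h
      exact hne f ⟨hf, h⟩
    · exact hB.ny j h0 hj f hf h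
  have hm1 := hA.m1
  have hn1 := hB.m1
  obtain ⟨q, hqa, hqb⟩ : ∃ q : ℕ → V, (∀ k, k ≤ m → q k = a k) ∧
      ∀ k, m ≤ k → k ≤ m + n → q k = b (m + n - k) := by
    refine ⟨fun k => if k ≤ m then a k else b (m + n - k), ?_, ?_⟩
    · intro k hk
      simp [hk]
    · intro k hk _
      by_cases h : k ≤ m
      · have hkm : k = m := by omega
        subst hkm
        simp [hab]
      · simp [h]
  refine ⟨m + n, q, ?_, ?_, ?_, ?_, ?_⟩
  · rw [hqa 0 (by omega), hA.a0]
  · rw [hqb (m + n) (by omega) le_rfl, Nat.sub_self, hB.a0]
  · have hmix : ∀ i j, i ≤ m → m < j → j ≤ m + n → q i ≠ q j := by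
      intro i j hi hj hj' h
      rw [hqa i hi, hqb j hj.le hj'] at h
      apply hbx A hAx (m + n - j) (by omega)
      rw [← h]
      exact haV i hi
    intro i j hi hj h
    rcases Nat.lt_or_ge m i with h1 | h1
    · rcases Nat.lt_or_ge m j with h2 | h2
      · rw [hqb i h1.le hi, hqb j h2.le hj] at h
        have := hB.inj _ _ (by omega) (by omega) h
        omega
      · exact absurd h.symm (hmix j i h2 h1 hi)
    · rcases Nat.lt_or_ge m j with h2 | h2
      · exact absurd h (hmix i j h1 h2 hj)
      · rw [hqa i h1, hqa j h2] at h
        exact hA.inj _ _ h1 h2 h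
  · intro k hk
    rcases Nat.lt_or_ge k m with h | h
    · rw [hqa k h.le, hqa (k + 1) (by omega)]
      exact ⟨A, hA.ed k h⟩
    · rw [hqb k h hk.le, hqb (k + 1) (by omega) (by omega)]
      refine ⟨B, ?_⟩
      have e : m + n - k = (m + n - (k + 1)) + 1 := by omega
      rw [e, Sym2.eq_swap]
      exact hB.ed _ (by omega)
  · intro f hf i j hij hj hfi hfj k hik hkj
    rcases hf with hfx | hfy
    · have hjm : j ≤ m := by
        by_contra hcon
        rw [hqb j (by omega) hj] at hfj
        exact hbx f hfx _ (by omega) hfj
      by_cases hfA : f = A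
      · subst hfA
        rw [hqa k (by omega), hqa (k + 1) (by omega)]
        exact hA.ed k (by omega)
      · have hj1 : j ≤ 1 := by
          by_contra hcon
          rw [hqa j hjm] at hfj
          have hne' : x ≠ a j := by
            intro h
            have := hA.inj 0 j (by omega) hjm (by rw [hA.a0]; exact h)
            omega
          obtain ⟨e1, -, -⟩ := M.poly f A hfA x (a j) hne' hfx hfj hAx (haV j hjm)
          exact hA.nx j (by omega) hjm ⟨f, e1⟩
        have hk0 : k = 0 := by omega
        have hj1' : j = 1 := by omega
        subst hk0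
        subst hj1'
        rw [hqa 0 (by omega), hqa (0 + 1) (by omega), hA.a0]
        rw [hqa 1 (by omega)] at hfj
        have hadj : Adj M.toCyc x (a 1) := by
          have := hA.ed 0 (by omega)
          rw [hA.a0] at this
          exact ⟨A, this⟩
        exact hE2 f x (a 1) hadj hfx hfj
    · have hi0 : i ≠ 0 := by
        intro h
        subst h
        rw [hqa 0 (by omega), hA.a0] at hfi
        exact hne f ⟨hfi, hfy⟩
      by_cases hfB : f = B
      · subst hfB
        rcases Nat.lt_or_ge k m with hkm | hkm
        · have hind : ∀ l, i + l ≤ k → OnV M.toCyc f (a (i + l)) := by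
            intro l
            induction l with
            | zero =>
              intro _
              rw [hqa i (by omega)] at hfi
              exact hfi
            | succ l ih =>
              intro hl
              have h1 := ih (by omega)
              have h2 := (hA.ny (i + l) (by omega) (by omega) f hfy h1).2
              exact (hE1 f _ _ h2).2.1
          have h3 := hind (k - i) (by omega)
          have e : i + (k - i) = k := by omega
          rw [e] at h3
          rw [hqa k hkm.le, hqa (k + 1) (by omega)]
          exact (hA.ny k (by omega) hkm f hfy h3).2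
        · rw [hqb k hkm (by omega), hqb (k + 1) (by omega) (by omega)]
          have e : m + n - k = (m + n - (k + 1)) + 1 := by omega
          rw [e, Sym2.eq_swap]
          exact hB.ed _ (by omega)
      · have him : m ≤ i := by
          by_contra hcon
          rw [hqa i (by omega)] at hfi
          exact hfB (hA.ny i (by omega) (by omega) f hfy hfi).1
        rw [hqb i him (by omega)] at hfi
        have hi1 : m + n - i ≤ 1 := by
          by_contra hcon
          have hne' : y ≠ b (m + n - i) := by
            intro h
            have := hB.inj 0 (m + n - i) (by omega) (by omega) (by rw [hB.a0]; exact h)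
            omega
          obtain ⟨e1, -, -⟩ := M.poly f B hfB y _ hne' hfy hfi hBy (hbV _ (by omega))
          exact hB.nx _ (by omega) (by omega) ⟨f, e1⟩
        have e1 : m + n - i = 1 := by omega
        have e2 : k = i := by omega
        subst e2
        rw [e1] at hfi
        rw [hqb k him (by omega), hqb (k + 1) (by omega) (by omega), e1]
        have e3 : m + n - (k + 1) = 0 := by omega
        rw [e3, hB.a0, Sym2.eq_swap]
        have hadj : Adj M.toCyc y (b 1) := by
          have := hB.ed 0 (by omega)
          rw [hB.a0] at this
          exact ⟨B, this⟩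
        exact hE2 f y (b 1) hadj hfy hfi

end Pool.Agent.helper81.NW
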